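import Pool.Agent.R571.LB.Map

/-!
# A longbranched unimodal map for which `f | ω(c)` is a minimal homeomorphism

There is a unimodal map `f` of `[0,1]` (continuous, strictly increasing on `[0,c]`, strictly
decreasing on `[c,1]`) with `c₂ < c < c₁`, `c₂ < c₃`, whose turning point is infinitely recurrent,
whose kneading map is bounded by `1`, and for which `f | ω(c)` is a minimal homeomorphism.
The example is of Denjoy type.
-/

namespace Pool.Agent.Results.MP_23b248_an.MinimalHomeomorphicLongbranched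

open Set Filter Topology

/-- `f : [0,1] → [0,1]` is unimodal with turning point `c ∈ (0,1)`. -/
structure Unimodal (f : ℝ → ℝ) (c : ℝ) : Prop where
  continuousOn : ContinuousOn f (Icc 0 1)
  mapsTo : MapsTo f (Icc 0 1) (Icc 0 1)
  turning : c ∈ Ioo (0 : ℝ) 1
  increasing : StrictMonoOn f (Icc 0 c)
  decreasing : StrictAntiOn f (Icc c 1)

/-- The omega-limit set `ω(c)`: the points of accumulation of the forward orbit, i.e.
`⋂_N closure {f^n(c) : n ≥ N}`. -/
def omega (f : ℝ → ℝ) (c : ℝ) : Set ℝ := ⋂ N : ℕ, closure {y | ∃ n : ℕ, N ≤ n ∧ y = f^[n] c}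

/-- The turning point is infinitely recurrent: `c ∈ ω(c)` and `c` is not periodic. -/
def InfinitelyRecurrent (f : ℝ → ℝ) (c : ℝ) : Prop :=
  c ∈ omega f c ∧ ∀ n : ℕ, 1 ≤ n → f^[n] c ≠ c

open Classical in
/-- The kneading sequence: `ν_n = 1` if `c_n > c` and `0` otherwise (for nonperiodic `c`: if
`c_n < c`). -/
noncomputable def kneading (f : ℝ → ℝ) (c : ℝ) (n : ℕ) : ℕ := if c < f^[n] c then 1 else 0

/-- `S` is the sequence of cutting times: `S_0 = 1`,
`S_{k+1} = min {n > S_k : ν_n ≠ ν_{n - S_k}}`. -/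
def CuttingTimes (f : ℝ → ℝ) (c : ℝ) (S : ℕ → ℕ) : Prop :=
  S 0 = 1 ∧ ∀ k, IsLeast {n | S k < n ∧ kneading f c n ≠ kneading f c (n - S k)} (S (k + 1))

/-- `f` is longbranched: the kneading map `Q` (defined by `S_k - S_{k-1} = S_{Q(k)}`, `k ≥ 1`) is
bounded. -/
def Longbranched (f : ℝ → ℝ) (c : ℝ) : Prop :=
  ∃ S Q : ℕ → ℕ, CuttingTimes f c S ∧ (∀ k, 1 ≤ k → S k - S (k - 1) = S (Q k)) ∧
    ∃ b, ∀ k, 1 ≤ k → Q k ≤ b

/-- `f : ω(c) → ω(c)` is a bijection of `ω(c)` onto itself and every forward orbit in `ω(c)` is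
dense in `ω(c)`. -/
def MinimalHomeomorphism (f : ℝ → ℝ) (c : ℝ) : Prop :=
  BijOn f (omega f c) (omega f c) ∧
    ∀ y ∈ omega f c, omega f c ⊆ closure (range fun n : ℕ => f^[n] y)

open Pool.Agent.R571.LB

section

variable {α : ℝ} {Pm Pp : ℝ → ℝ} (h : Den α Pm Pp)
include h

/-- tails of the orbit closure of any point of `Lam` contain the orbit of `c` -/
lemma tail_mem {y : ℝ} (hy : y ∈ Lam α Pm Pp) (N m : ℕ) :
    (ff α Pm Pp)^[m] (Pp (1 - α)) ∈ closure {z | ∃ n : ℕ, N ≤ n ∧ z = (ff α Pm Pp)^[n] y} := by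
  induction m with
  | zero =>
    rw [Function.iterate_zero, id, Metric.mem_closure_iff]
    intro ε hε
    obtain ⟨n, hn, hn2⟩ := h.recur hy N hε
    refine ⟨_, ⟨n, hn, rfl⟩, ?_⟩
    rwa [dist_comm, Real.dist_eq]
  | succ m ih =>
    rw [Function.iterate_succ_apply']
    have h1 := image_closure_subset_closure_image h.ff_cont (mem_image_of_mem (ff α Pm Pp) ih)
    refine closure_mono ?_ h1
    rintro _ ⟨z, ⟨n, hn, rfl⟩, rfl⟩
    exact ⟨n + 1, by omega, by rw [Function.iterate_succ_apply']⟩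

lemma omega_sub_tail {y : ℝ} (hy : y ∈ Lam α Pm Pp) (N : ℕ) :
    omega (ff α Pm Pp) (Pp (1 - α)) ⊆ closure {z | ∃ n : ℕ, N ≤ n ∧ z = (ff α Pm Pp)^[n] y} := by
  intro z hz
  have h1 := mem_iInter.1 hz 0
  refine closure_minimal ?_ isClosed_closure h1
  rintro _ ⟨m, -, rfl⟩
  exact tail_mem h hy N m

lemma omega_sub_Lam : omega (ff α Pm Pp) (Pp (1 - α)) ⊆ Lam α Pm Pp := by
  intro z hz
  have h1 := mem_iInter.1 hz 0
  refine closure_minimal ?_ h.isClosed_Lam h1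
  rintro _ ⟨m, -, rfl⟩
  exact h.Lam_maps.iterate m (Or.inl h.c_mem)

lemma c_mem_omega : Pp (1 - α) ∈ omega (ff α Pm Pp) (Pp (1 - α)) :=
  mem_iInter.2 fun N => tail_mem h (Or.inl h.c_mem) N 0

lemma omega_maps : MapsTo (ff α Pm Pp) (omega (ff α Pm Pp) (Pp (1 - α)))
    (omega (ff α Pm Pp) (Pp (1 - α))) := by
  intro z hz
  refine mem_iInter.2 fun N => ?_
  have h1 := image_closure_subset_closure_image h.ff_cont
    (mem_image_of_mem (ff α Pm Pp) (mem_iInter.1 hz N))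
  refine closure_mono ?_ h1
  rintro _ ⟨z, ⟨n, hn, rfl⟩, rfl⟩
  exact ⟨n + 1, by omega, by rw [Function.iterate_succ_apply']⟩

lemma isClosed_omega : IsClosed (omega (ff α Pm Pp) (Pp (1 - α))) :=
  isClosed_iInter fun _ => isClosed_closure

lemma minimal : MinimalHomeomorphism (ff α Pm Pp) (Pp (1 - α)) := by
  refine ⟨⟨omega_maps h, h.Lam_inj.mono (omega_sub_Lam h), ?_⟩, ?_⟩
  · -- surjectivity
    have hcomp : IsCompact (omega (ff α Pm Pp) (Pp (1 - α))) :=
      isCompact_Icc.of_isClosed_subset (isClosed_omega h) ((omega_sub_Lam h).trans h.Lam_sub)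
    have hcl : IsClosed (ff α Pm Pp '' omega (ff α Pm Pp) (Pp (1 - α))) :=
      (hcomp.image h.ff_cont).isClosed
    intro z hz
    refine closure_minimal ?_ hcl (mem_iInter.1 hz 1)
    rintro _ ⟨n, hn, rfl⟩
    obtain ⟨m, rfl⟩ : ∃ m, n = m + 1 := ⟨n - 1, by omega⟩
    refine ⟨(ff α Pm Pp)^[m] (Pp (1 - α)), (omega_maps h).iterate m (c_mem_omega h), ?_⟩
    rw [Function.iterate_succ_apply']
  · intro y hy z hz
    refine closure_mono ?_ (omega_sub_tail h (omega_sub_Lam h hy) 0 hz)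
    rintro _ ⟨n, -, rfl⟩
    exact ⟨n, rfl⟩

/-! ### kneading -/

lemma orb1 : (ff α Pm Pp)^[1] (Pp (1 - α)) = 1 := by
  rw [Function.iterate_one, h.ff_c]

lemma orb2 : (ff α Pm Pp)^[2] (Pp (1 - α)) = 0 := by
  rw [show 2 = 1 + 1 from rfl, Function.iterate_succ_apply', orb1 h, h.ff_one]

/-- the special points `Pp (j α - p)` -/
def Spec (α : ℝ) (Pm Pp : ℝ → ℝ) (x : ℝ) : Prop :=
  ∃ (j : ℕ) (p : ℤ), x = Pp (j * α - p) ∧ x ∈ Bs Pm Pp

lemma spec_ne {x : ℝ} (hx : Spec α Pm Pp x) : x ≠ Pp (1 - α) := by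
  rintro rfl
  obtain ⟨j, p, h1, -⟩ := hx
  have h2 := h.monoP.injective h1
  have h3 : ((j + 1 : ℕ) : ℝ) * α = ((p + 1 : ℤ) : ℝ) := by push_cast; linarith
  have h4 : Irrational (((j + 1 : ℕ) : ℝ) * α) := h.irr.natCast_mul (by omega)
  exact h4.ne_int _ h3

lemma spec_step {x : ℝ} (hx : Spec α Pm Pp x) :
    (x < Pp (1 - α) ∧ Spec α Pm Pp (ff α Pm Pp x)) ∨
    (Pp (1 - α) < x ∧ Pp (1 - α) < ff α Pm Pp x ∧ Spec α Pm Pp (ff α Pm Pp (ff α Pm Pp x))) := by
  have hne := spec_ne h hx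
  obtain ⟨j, p, rfl, h2⟩ := hx
  rcases h.step h.brP h2 with ⟨h3, h4, h5⟩ | ⟨h3, h4, h5, h6⟩
  · left
    refine ⟨h3.trans_lt h.u_lt_c, j + 1, p, ?_, ?_⟩
    · rw [h4]
      congr 1
      push_cast; ring
    · rw [h4]; exact h5
  · right
    refine ⟨lt_of_le_of_ne h3 hne.symm, ?_, j + 1, p + 1, ?_, ?_⟩
    · rw [h4]
      linarith [h2.2.2, h.w_lt]
    · rw [h5]
      congr 1
      push_cast; ring
    · rw [h5]; exact h6

lemma spec_zero : Spec α Pm Pp ((ff α Pm Pp)^[2] (Pp (1 - α))) := by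
  rw [orb2 h]
  have hz : Pp (((0:ℕ):ℝ) * α - ((0:ℤ):ℝ)) = 0 := by
    simp [h.zp]
  refine ⟨0, 0, hz.symm, ⟨0, Or.inr h.zp.symm⟩, le_rfl, ?_⟩
  linarith [h.c_pos, h.c_lt_w]

/-- every later point of the orbit is special or the image of a special point to the right -/
lemma orbit_all (n : ℕ) : Spec α Pm Pp ((ff α Pm Pp)^[n + 2] (Pp (1 - α))) ∨
    ∃ x, Spec α Pm Pp x ∧ Pp (1 - α) < x ∧
      (ff α Pm Pp)^[n + 2] (Pp (1 - α)) = ff α Pm Pp x := by
  induction n with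
  | zero => exact Or.inl (spec_zero h)
  | succ n ih =>
    rw [show n + 1 + 2 = (n + 2) + 1 by ring, Function.iterate_succ_apply']
    rcases ih with ih | ⟨x, hx, hxc, he⟩
    · rcases spec_step h ih with ⟨-, h1⟩ | ⟨h1, -, -⟩
      · exact Or.inl h1
      · exact Or.inr ⟨_, ih, h1, rfl⟩
    · rw [he]
      rcases spec_step h hx with ⟨h1, -⟩ | ⟨-, -, h1⟩
      · exact absurd h1 (not_lt.2 hxc.le)
      · exact Or.inl h1

lemma not_periodic (n : ℕ) (hn : 1 ≤ n) : (ff α Pm Pp)^[n] (Pp (1 - α)) ≠ Pp (1 - α) := by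
  rcases Nat.lt_or_ge n 2 with h1 | h1
  · obtain rfl : n = 1 := by omega
    rw [orb1 h]
    have : Pp (1 - α) < 1 := by linarith [h.c_lt_w, h.w_lt]
    exact this.ne'
  · obtain ⟨m, rfl⟩ : ∃ m, n = m + 2 := ⟨n - 2, by omega⟩
    rcases orbit_all h m with h2 | ⟨x, hx, hxc, he⟩
    · exact spec_ne h h2
    · rw [he]
      rcases spec_step h hx with ⟨h3, -⟩ | ⟨-, h3, -⟩
      · exact absurd h3 (not_lt.2 hxc.le)
      · exact h3.ne'

open Classical in
/-- the cutting times -/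
noncomputable def cut (α : ℝ) (Pm Pp : ℝ → ℝ) : ℕ → ℕ
  | 0 => 1
  | k + 1 => cut α Pm Pp k +
      (if (ff α Pm Pp)^[cut α Pm Pp k + 1] (Pp (1 - α)) < Pp (1 - α) then 1 else 2)

lemma cut_spec (k : ℕ) : Spec α Pm Pp ((ff α Pm Pp)^[cut α Pm Pp k + 1] (Pp (1 - α))) := by
  induction k with
  | zero => exact spec_zero h
  | succ k ih =>
    rw [cut]
    rcases spec_step h ih with ⟨h1, h2⟩ | ⟨h1, -, h2⟩
    · rw [if_pos h1, Function.iterate_succ_apply']
      exact h2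
    · rw [if_neg (not_lt.2 h1.le), Function.iterate_succ_apply',
        show cut α Pm Pp k + 2 = (cut α Pm Pp k + 1) + 1 by ring, Function.iterate_succ_apply']
      exact h2

lemma kn1 : kneading (ff α Pm Pp) (Pp (1 - α)) 1 = 1 := by
  unfold kneading
  rw [orb1 h, if_pos]
  linarith [h.c_lt_w, h.w_lt]

lemma kn2 : kneading (ff α Pm Pp) (Pp (1 - α)) 2 = 0 := by
  unfold kneading
  rw [orb2 h, if_neg]
  exact not_lt.2 h.c_pos.le

lemma cuttingTimes : CuttingTimes (ff α Pm Pp) (Pp (1 - α)) (cut α Pm Pp) := by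
  refine ⟨rfl, fun k => ?_⟩
  have hs := cut_spec h k
  rw [cut]
  rcases spec_step h hs with ⟨h1, h2⟩ | ⟨h1, h2, h3⟩
  · rw [if_pos h1]
    refine ⟨⟨by omega, ?_⟩, ?_⟩
    · rw [Nat.add_sub_cancel_left, kn1 h]
      unfold kneading
      rw [if_neg (not_lt.2 h1.le)]
      norm_num
    · rintro n ⟨hn, -⟩
      omega
  · rw [if_neg (not_lt.2 h1.le)]
    refine ⟨⟨by omega, ?_⟩, ?_⟩
    · rw [Nat.add_sub_cancel_left, kn2 h]
      unfold kneading
      rw [show cut α Pm Pp k + 2 = (cut α Pm Pp k + 1) + 1 by ring, Function.iterate_succ_apply',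
        if_pos h2]
      norm_num
    · rintro n ⟨hn, hne⟩
      by_contra hcon
      have : n = cut α Pm Pp k + 1 := by omega
      subst this
      apply hne
      rw [Nat.add_sub_cancel_left, kn1 h]
      unfold kneading
      rw [if_pos h1]

lemma cut_one : cut α Pm Pp 1 = 2 := by
  rw [cut, cut, if_pos]
  rw [orb2 h]
  exact h.c_pos

open Classical in
lemma longbranched : Longbranched (ff α Pm Pp) (Pp (1 - α)) := by
  refine ⟨cut α Pm Pp, fun k => if cut α Pm Pp k = cut α Pm Pp (k - 1) + 1 then 0 else 1,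
    cuttingTimes h, ?_, 1, ?_⟩
  · intro k hk
    obtain ⟨m, rfl⟩ : ∃ m, k = m + 1 := ⟨k - 1, by omega⟩
    simp only [Nat.add_sub_cancel]
    have hc := cuttingTimes h
    have hm : cut α Pm Pp (m + 1) = cut α Pm Pp m + 1 ∨
        cut α Pm Pp (m + 1) = cut α Pm Pp m + 2 := by
      rw [cut]
      split_ifs
      · left; rfl
      · right; rfl
    rcases hm with hm | hm
    · rw [if_pos hm, hc.1, hm]
      omega
    · rw [if_neg (by omega), cut_one h, hm]
      omega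
  · intro k _
    dsimp only
    split_ifs <;> norm_num

end

/-- There is a longbranched unimodal map whose turning point is infinitely recurrent and for which
`f : ω(c) → ω(c)` is a minimal homeomorphism. -/
theorem result : ∃ (f : ℝ → ℝ) (c : ℝ), Unimodal f c ∧ f (f c) < c ∧ c < f c ∧
    f (f c) < f (f (f c)) ∧ InfinitelyRecurrent f c ∧ Longbranched f c ∧
    MinimalHomeomorphism f c := by
  obtain ⟨α, Pm, Pp, h⟩ := exists_den
  have hc1 : Pp (1 - α) < 1 := by linarith [h.c_lt_w, h.w_lt]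
  refine ⟨ff α Pm Pp, Pp (1 - α), ⟨h.ff_cont.continuousOn, h.ff_mapsTo, ⟨h.c_pos, hc1⟩,
    h.ff_strictMonoOn, h.ff_strictAntiOn⟩, ?_, ?_, ?_, ⟨c_mem_omega h, not_periodic h⟩,
    longbranched h, minimal h⟩
  · rw [h.ff_c, h.ff_one]
    exact h.c_pos
  · rw [h.ff_c]
    exact hc1
  · rw [h.ff_c, h.ff_one, h.ff_zero]
    exact h.Pa_pos

end Pool.Agent.Results.MP_23b248_an.MinimalHomeomorphicLongbranched
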