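import Pool.Agent.R497.LB.Side

set_option autoImplicit false

/-!
# MP_23b248_an: longbranched unimodal maps with minimal homeomorphic critical omega-limit dynamics
-/

namespace Pool.Agent.Results.MP_23b248_an.NoMinimalHomeo

open Filter Topology Set unitInterval

/-- `f : [0,1] → [0,1]` is unimodal with turning point `c`: it is continuous, strictly increasing on
`[0,c]` and strictly decreasing on `[c,1]`, `0 < c < 1`; and `c₂ < c < c₁`, `c₂ < c₃`. -/
structure Unimodal (f : I → I) (c : I) : Prop where
  continuous : Continuous f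
  pos : 0 < c
  lt_one : c < 1
  incr : StrictMonoOn f (Icc 0 c)
  decr : StrictAntiOn f (Icc c 1)
  c2_lt : f^[2] c < c
  lt_c1 : c < f^[1] c
  c2_lt_c3 : f^[2] c < f^[3] c

/-- The omega-limit set of `x`: the cluster points of its forward orbit. -/
def omegaSet (f : I → I) (x : I) : Set I := {y | MapClusterPt y atTop fun n => f^[n] x}

/-- The turning point is infinitely recurrent: `c ∈ ω(c)` and `c` is not periodic. -/
def InfinitelyRecurrent (f : I → I) (c : I) : Prop :=
  c ∈ omegaSet f c ∧ ∀ n, 1 ≤ n → f^[n] c ≠ c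

/-- The `n`-th entry of the kneading sequence of a non-periodic turning point:
`ν_n = 1` if `c_n > c` and `ν_n = 0` otherwise. -/
noncomputable def kneading (f : I → I) (c : I) (n : ℕ) : ℕ :=
  open Classical in if c < f^[n] c then 1 else 0

/-- The sequence of cutting times: `S_0 = 1`, `S_k = min {n > S_{k-1} : ν_n ≠ ν_{n - S_{k-1}}}`. -/
def IsCuttingTimes (f : I → I) (c : I) (S : ℕ → ℕ) : Prop :=
  S 0 = 1 ∧ ∀ k, IsLeast {n | S k < n ∧ kneading f c n ≠ kneading f c (n - S k)} (S (k + 1))

/-- `f` is longbranched: it has cutting times `S_k`, its kneading map `Q`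
(`S_k - S_{k-1} = S_{Q(k)}` for `k ≥ 1`) exists and is bounded. -/
def Longbranched (f : I → I) (c : I) : Prop :=
  ∃ S Q : ℕ → ℕ, IsCuttingTimes f c S ∧ (∀ k, 1 ≤ k → S k - S (k - 1) = S (Q k)) ∧
    ∃ B, ∀ k, 1 ≤ k → Q k ≤ B

/-- `f : Ω → Ω` is a minimal homeomorphism: a bijection of `Ω` onto itself, every forward orbit in
`Ω` being dense in `Ω`. -/
def MinimalHomeo (f : I → I) (Ω : Set I) : Prop :=
  BijOn f Ω Ω ∧ ∀ x ∈ Ω, Ω ⊆ closure (range fun n => f^[n] x)

theorem isCutting {f : I → I} {c : I} {S : ℕ → ℕ} (h : IsCuttingTimes f c S) :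
    R497.LB.IsCutting f c S := by
  refine ⟨h.1, fun k => ?_⟩
  have e : {n | S k < n ∧ ¬(c < f^[n] c ↔ c < f^[n - S k] c)} =
      {n | S k < n ∧ kneading f c n ≠ kneading f c (n - S k)} := by
    ext n
    refine and_congr_right fun _ => not_congr ?_
    unfold kneading
    by_cases h1 : c < f^[n] c <;> by_cases h2 : c < f^[n - S k] c <;> simp [h1, h2]
  rw [e]
  exact h.2 k

/-- For a longbranched unimodal map `f` with infinitely recurrent turning point `c` for which
`f : ω(c) → ω(c)` is a minimal homeomorphism, two different points of `ω(c)` bound an interval on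
which all iterates of `f` are strictly monotone.

Consequently a longbranched unimodal map with infinitely recurrent turning point that has no such
interval (for every `x < y` some iterate is not monotone on `[x,y]`: no wandering intervals and no
attracting cycles) is never a minimal homeomorphism on `ω(c)`. -/
theorem result :
    (∀ (f : I → I) (c : I), Unimodal f c → Longbranched f c → InfinitelyRecurrent f c →
      MinimalHomeo f (omegaSet f c) →
      ∃ x ∈ omegaSet f c, ∃ y ∈ omegaSet f c, x < y ∧
        ∀ n, StrictMonoOn f^[n] (Icc x y) ∨ StrictAntiOn f^[n] (Icc x y)) ∧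
    (∀ (f : I → I) (c : I), Unimodal f c → Longbranched f c → InfinitelyRecurrent f c →
      (∀ x y : I, x < y → ∃ n, ¬ InjOn f^[n] (Icc x y)) →
      ¬ MinimalHomeo f (omegaSet f c)) := by
  have main : ∀ (f : I → I) (c : I), Unimodal f c → Longbranched f c → InfinitelyRecurrent f c →
      MinimalHomeo f (omegaSet f c) →
      ∃ x ∈ omegaSet f c, ∃ y ∈ omegaSet f c, x < y ∧
        ∀ n, StrictMonoOn f^[n] (Icc x y) ∨ StrictAntiOn f^[n] (Icc x y) := by
    intro f c hu ⟨S, Q, hS, hQ, B, hB⟩ hr hm
    have hS' := isCutting hS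
    have hmono : StrictMono S := strictMono_nat_of_lt_succ (R497.LB.S_lt hS')
    have hincr : StrictMonoOn f (Iic c) := by
      have : (Icc 0 c : Set I) = Iic c := by
        ext x; exact ⟨fun h => h.2, fun h => ⟨x.2.1, h⟩⟩
      rw [← this]; exact hu.incr
    have hdecr : StrictAntiOn f (Ici c) := by
      have : (Icc c 1 : Set I) = Ici c := by
        ext x; exact ⟨fun h => h.1, fun h => ⟨h, x.2.2⟩⟩
      rw [← this]; exact hu.decr
    have hK : ∀ k, S (k + 1) - S k ≤ S B := by
      intro k
      have h1 := hQ (k + 1) (by omega)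
      rw [Nat.add_sub_cancel] at h1
      rw [h1]
      exact hmono.monotone (hB (k + 1) (by omega))
    exact R497.LB.main hu.continuous hincr hdecr hr.2 (by simpa using hu.lt_c1) hS' hK hr.1
      hm.1.injOn hm.2
  refine ⟨main, ?_⟩
  intro f c hu hl hr hno hm
  obtain ⟨x, _, y, _, hxy, h⟩ := main f c hu hl hr hm
  obtain ⟨n, hn⟩ := hno x y hxy
  rcases h n with h' | h'
  · exact hn h'.injOn
  · exact hn h'.injOn

end Pool.Agent.Results.MP_23b248_an.NoMinimalHomeo
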